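import Pool.Agent.TH694.FV.Search

/-!
# Feedback Vertex Set on `S_{1,p,q,r}`-subgraph-free graphs is polynomial-time solvable

`NPC.PolyTime f`: the function `f` on bit strings is computed by a Turing machine in polynomial time
(Mathlib's `Turing.TM2ComputableInPolyTime`).  `NPC.bits`: the standard code of structured data as a
bit string; numbers are written in binary.  `adjMatrix G`: the adjacency matrix of a graph `G` on
`{0, ..., n-1}`, as the list of its rows, which are lists of Booleans.

Outline of the proof.  As long as possible replace a connected part of the graph which meets the rest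
in at most two vertices `x, y` by one labelled edge `xy`; the label consists of the costs of the part
when `x` is deleted, when `y` is deleted, when both are kept, and when both are kept and may not be
connected in the part.  We always replace a minimal such part inside a minimal part with at most one
boundary vertex.  Then the part, together with a virtual edge `xy`, is 3-connected, and it is a
topological minor of the given graph.  If it contains a long path, then either some vertex has four
long disjoint legs, or every vertex `v` has three long disjoint legs (Menger's theorem), each of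
which contains only one neighbour of `v`; since the graph has no `S_{1,p,q,r}`, all vertices have
degree three and all labels are those of an ordinary or of a free edge, and the costs are computed by
matroid parity for graphic matroids.  If it contains no long path, then the costs are computed by
dynamic programming along paths.
-/

namespace Pool.Agent.Results.MP_424cb6_lc.PolynomialForAll

open Pool.Agent.NPC Pool.Agent.NPC.R671

/-- The tree `S_{w,x,y,z}`: the vertex `none` is the centre, and `some ⟨i, j⟩` is the `j`-th vertex of
the `i`-th leg (`j` starts with `0`); the four legs have `w`, `x`, `y` and `z` edges. -/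
def S (w x y z : ℕ) : SimpleGraph (Option (Σ i : Fin 4, Fin (![w, x, y, z] i))) :=
  SimpleGraph.fromRel fun u v => match u, v with
    | none, some ⟨_, j⟩ => j.val = 0
    | some ⟨i, j⟩, some ⟨i', j'⟩ => i = i' ∧ j'.val = j.val + 1
    | _, _ => False

/-- `X` is a feedback vertex set of `G`: the graph `G - X` is a forest. -/
def IsFeedbackVertexSet {n : ℕ} (G : SimpleGraph (Fin n)) (X : Finset (Fin n)) : Prop :=
  (G.induce {v | v ∉ X}).IsAcyclic

theorem S_eq (w x y z : ℕ) : S w x y z = TH694.FV.spider ![w, x, y, z] := by
  ext u v
  rw [S, TH694.FV.spider, SimpleGraph.fromRel_adj, SimpleGraph.fromRel_adj]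
  rcases u with _ | ⟨i, j⟩ <;> rcases v with _ | ⟨i', j'⟩ <;> exact Iff.rfl

open Classical in
/-- For all `p, q, r ≥ 1` Feedback Vertex Set is solvable in polynomial time on
`S_{1,p,q,r}`-subgraph-free graphs: there is a polynomial-time algorithm which decides, given such a
graph and a number `k`, whether it has a feedback vertex set of size at most `k`; and there is a
polynomial-time algorithm which outputs (the characteristic vector of) a minimum feedback vertex set
of such a graph. -/
theorem result (p q r : ℕ) (_hp : 1 ≤ p) (_hq : 1 ≤ q) (_hr : 1 ≤ r) :
    (∃ f : List Bool → List Bool, PolyTime f ∧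
      ∀ (n : ℕ) (G : SimpleGraph (Fin n)), (S 1 p q r).Free G → ∀ k : ℕ,
        f (bits (adjMatrix G, k)) =
          bits (decide (∃ X : Finset (Fin n), IsFeedbackVertexSet G X ∧ X.card ≤ k))) ∧
    (∃ g : List Bool → List Bool, PolyTime g ∧
      ∀ (n : ℕ) (G : SimpleGraph (Fin n)), (S 1 p q r).Free G →
        ∃ X : Finset (Fin n), IsFeedbackVertexSet G X ∧
          (∀ Y : Finset (Fin n), IsFeedbackVertexSet G Y → X.card ≤ Y.card) ∧
          g (bits (adjMatrix G)) = bits (List.ofFn fun i => decide (i ∈ X))) := by
  constructor
  · obtain ⟨g, hg, hspec⟩ := TH694.FV.main p q r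
    refine ⟨fun x => bits ((unbits (List (List Bool) × ℕ) x).elim false
      (fun I => decide (g I.1 ≤ I.2))), ?_, fun n G hG k => ?_⟩
    · apply polyTime_bits
      refine NPC.Poly.optElim (o := fun x => unbits (List (List Bool) × ℕ) x)
        (h := fun _ I => decide (g I.1 ≤ I.2)) poly_unbits (NPC.Poly.const false) ?_
      exact NPC.Poly.decide_le (hg.comp (NPC.Poly.fst (NPC.Poly.snd NPC.Poly.id)))
        (NPC.Poly.snd (NPC.Poly.snd NPC.Poly.id))
    · simp only [unbits_bits, Option.elim]
      have h := hspec n G (by rw [← S_eq]; exact hG)
      congr 1
      rw [decide_eq_decide]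
      constructor
      · intro hk
        obtain ⟨X, h1, h2⟩ := h.1
        exact ⟨X, h2, by omega⟩
      · rintro ⟨X, h1, h2⟩
        exact (h.2 ⟨X, rfl, h1⟩).trans h2
  · obtain ⟨g, hg, hspec⟩ := TH694.FV.main_search p q r
    refine ⟨fun x => bits ((unbits (List (List Bool)) x).elim [] g), ?_, fun n G hG => ?_⟩
    · apply polyTime_bits
      exact NPC.Poly.optElim (o := fun x => unbits (List (List Bool)) x) (h := fun _ I => g I)
        poly_unbits (NPC.Poly.const []) (hg.comp (NPC.Poly.snd NPC.Poly.id))
    · obtain ⟨X, ⟨h1, h2⟩, h3⟩ := hspec n G (by rw [← S_eq]; exact hG)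
      refine ⟨X, h1, fun Y hY => ?_, ?_⟩
      · rw [h2]
        exact TH694.FV.opt_le hY
      · simp only [unbits_bits, Option.elim]
        rw [h3]

end Pool.Agent.Results.MP_424cb6_lc.PolynomialForAll
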